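import Pool.Agent.Helper8_HK.Stmt3
import Pool.Agent.Helper97_HK.Dig

/-!
# Squad HK, module INT: integration against the measure of a bounded harmonic cochain
-/

set_option autoImplicit false

namespace Pool.Agent.HK.H63

open Polynomial Filter

set_option linter.unusedSectionVars false

variable {F : Type} [Field F] [Fintype F] {C : Type} [NormedField C]

theorem dig_snoc (k : ℤ) {N : ℕ} (s : Fin N → F) (c : F) :
    dig k (Fin.snoc s c : Fin (N + 1) → F) = dig k s + cst F c * (unif F) ^ (k + (N : ℤ)) := by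
  unfold dig
  rw [Fin.sum_univ_castSucc]
  simp

theorem sum_snoc {R : Type} [AddCommMonoid R] {N : ℕ} (f : (Fin (N + 1) → F) → R) :
    ∑ s : Fin (N + 1) → F, f s = ∑ s : Fin N → F, ∑ c : F, f (Fin.snoc s c) := by
  rw [← (Fin.snocEquiv (fun _ : Fin (N + 1) => F)).sum_comp, Fintype.sum_prod_type_right]
  rfl

theorem LipK.add {ι : Kinf F →+* C} {g g' : Kinf F → C} (h : LipK ι g) (h' : LipK ι g') :
    LipK ι (fun x => g x + g' x) := by
  obtain ⟨L, hL⟩ := h
  obtain ⟨L', hL'⟩ := h'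
  refine ⟨L + L', fun x y hx hy => ?_⟩
  have e : g x + g' x - (g y + g' y) = (g x - g y) + (g' x - g' y) := by ring
  rw [e, add_mul]
  exact (norm_add_le _ _).trans (add_le_add (hL x y hx hy) (hL' x y hx hy))

theorem LipK.cmul {ι : Kinf F →+* C} {g : Kinf F → C} (c : C) (h : LipK ι g) :
    LipK ι (fun x => c * g x) := by
  obtain ⟨L, hL⟩ := h
  refine ⟨‖c‖ * L, fun x y hx hy => ?_⟩
  rw [← mul_sub, norm_mul, mul_assoc]
  exact mul_le_mul_of_nonneg_left (hL x y hx hy) (norm_nonneg c)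

theorem SInt_add (φ : GLK F → C) (N : ℕ) (g g' : Kinf F → C) :
    SInt φ N (fun x => g x + g' x) = SInt φ N g + SInt φ N g' := by
  unfold SInt
  rw [← Finset.sum_add_distrib]
  exact Finset.sum_congr rfl fun s _ => by ring

theorem SInt_cmul (φ : GLK F → C) (N : ℕ) (c : C) (g : Kinf F → C) :
    SInt φ N (fun x => c * g x) = c * SInt φ N g := by
  unfold SInt
  rw [Finset.mul_sum]
  exact Finset.sum_congr rfl fun s _ => by ring

/-- The difference of two consecutive Riemann sums. -/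
theorem SInt_succ (hVAL : VALStmt) {φ : GLK F → C} (hφ : IsHarm φ) (N : ℕ) (g : Kinf F → C) :
    SInt φ (N + 1) g - SInt φ N g = ∑ s : Fin N → F, ∑ c : F,
      φ (mat ((unif F) ^ ((N : ℤ) + 2)) (dig 1 (Fin.snoc s c : Fin (N + 1) → F)) 0 1) *
        (g (dig 1 (Fin.snoc s c : Fin (N + 1) → F)) - g (dig 1 s)) := by
  obtain ⟨_, _, P3, _⟩ := hVAL F C φ hφ
  have h1 : SInt φ (N + 1) g = ∑ s : Fin N → F, ∑ c : F,
      φ (mat ((unif F) ^ ((N : ℤ) + 2)) (dig 1 (Fin.snoc s c : Fin (N + 1) → F)) 0 1) *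
        g (dig 1 (Fin.snoc s c : Fin (N + 1) → F)) := by
    unfold SInt
    rw [sum_snoc]
    refine Finset.sum_congr rfl fun s _ => Finset.sum_congr rfl fun c _ => ?_
    have e : (((N + 1 : ℕ) : ℤ) + 1) = (N : ℤ) + 2 := by push_cast; ring
    rw [e]
  have h2 : SInt φ N g = ∑ s : Fin N → F, ∑ c : F,
      φ (mat ((unif F) ^ ((N : ℤ) + 2)) (dig 1 (Fin.snoc s c : Fin (N + 1) → F)) 0 1) *
        g (dig 1 s) := by
    unfold SInt
    refine Finset.sum_congr rfl fun s _ => ?_
    rw [← Finset.sum_mul]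
    congr 1
    have h3 := P3 1 ((N : ℤ) + 1) (dig 1 s)
    simp only [one_mul] at h3
    rw [← h3]
    refine Finset.sum_congr rfl fun c _ => ?_
    rw [dig_snoc]
    have e : ((N : ℤ) + 1 + 1) = (N : ℤ) + 2 := by ring
    have e2 : (1 + (N : ℤ)) = (N : ℤ) + 1 := by ring
    rw [e, e2]
  rw [h1, h2, ← Finset.sum_sub_distrib]
  refine Finset.sum_congr rfl fun s _ => ?_
  rw [← Finset.sum_sub_distrib]
  exact Finset.sum_congr rfl fun c _ => by ring

theorem int (hVAL : VALStmt) (hLAU : LAUStmt) (hIMA : IMAStmt) : INTStmt := by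
  intro F _ _ C _ _ _ _ ι hι φ B hφ hB
  obtain ⟨_, i2, _, i4, _⟩ := hIMA F C ι hι
  have hB0 : 0 ≤ B := (norm_nonneg _).trans (hB 1)
  set q : ℝ := ((Fintype.card F : ℕ) : ℝ) with hq
  have hq1 : 1 < q := by
    rw [hq]
    exact_mod_cast Fintype.one_lt_card
  have hq0 : 0 < q := by linarith
  have hdig : ∀ {N : ℕ} (s : Fin N → F), InO 1 (dig 1 s) := fun {N} s => H97.inO_dg hLAU N 1 s
  -- convergence
  have hlim : ∀ g : Kinf F → C, LipK ι g →
      Tendsto (fun N : ℕ => SInt φ N g) atTop (nhds (IntK φ g)) := by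
    intro g hg
    obtain ⟨L, hL⟩ := hg
    have hc : CauchySeq (fun N : ℕ => SInt φ N g) := by
      refine cauchySeq_of_le_geometric q⁻¹ (B * (|L| * q⁻¹)) (inv_lt_one_of_one_lt₀ hq1)
        fun N => ?_
      rw [dist_comm, dist_eq_norm, SInt_succ hVAL hφ]
      have h0 : 0 ≤ B * (|L| * q⁻¹) * q⁻¹ ^ N := by positivity
      refine IsUltrametricDist.norm_sum_le_of_forall_le_of_nonneg h0 fun s _ => ?_
      refine IsUltrametricDist.norm_sum_le_of_forall_le_of_nonneg h0 fun c _ => ?_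
      rw [norm_mul]
      have h1 := hL _ _ (hdig (Fin.snoc s c : Fin (N + 1) → F)) (hdig s)
      have h2 : dig 1 (Fin.snoc s c : Fin (N + 1) → F) - dig 1 s =
          cst F c * (unif F) ^ (1 + (N : ℤ)) := by
        rw [dig_snoc]; ring
      have h3 : ‖ι (dig 1 (Fin.snoc s c : Fin (N + 1) → F) - dig 1 s)‖ ≤ q ^ (-(1 + (N : ℤ))) := by
        rw [h2]
        exact i2 _ _ (H97.inO_cst_pow hLAU c _)
      have h4 : q ^ (-(1 + (N : ℤ))) = q⁻¹ * q⁻¹ ^ N := by
        rw [zpow_neg, zpow_add₀ hq0.ne', mul_inv, zpow_one, zpow_natCast, inv_pow]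
      rw [h4] at h3
      have h5 : L * ‖ι (dig 1 (Fin.snoc s c : Fin (N + 1) → F) - dig 1 s)‖ ≤
          |L| * (q⁻¹ * q⁻¹ ^ N) :=
        (mul_le_mul_of_nonneg_right (le_abs_self L) (norm_nonneg _)).trans
          (mul_le_mul_of_nonneg_left h3 (abs_nonneg L))
      have h6 := mul_le_mul (hB (mat ((unif F) ^ ((N : ℤ) + 2))
        (dig 1 (Fin.snoc s c : Fin (N + 1) → F)) 0 1)) (h1.trans h5) (norm_nonneg _) hB0
      refine h6.trans (le_of_eq ?_)
      ring
    exact CauchySeq.tendsto_limUnder hc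
  have hadd : ∀ g g' : Kinf F → C, LipK ι g → LipK ι g' →
      IntK φ (fun x => g x + g' x) = IntK φ g + IntK φ g' := by
    intro g g' hg hg'
    have h1 := (hlim g hg).add (hlim g' hg')
    have h2 : Tendsto (fun N : ℕ => SInt φ N (fun x => g x + g' x)) atTop
        (nhds (IntK φ g + IntK φ g')) := by
      refine h1.congr fun N => ?_
      rw [SInt_add]
    exact h2.limUnder_eq
  have hcmul : ∀ (c : C) (g : Kinf F → C), LipK ι g →
      IntK φ (fun x => c * g x) = c * IntK φ g := by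
    intro c g hg
    have h1 := (hlim g hg).const_mul c
    have h2 : Tendsto (fun N : ℕ => SInt φ N (fun x => c * g x)) atTop
        (nhds (c * IntK φ g)) := by
      refine h1.congr fun N => ?_
      rw [SInt_cmul]
    exact h2.limUnder_eq
  have hbd : ∀ (g : Kinf F → C) (G : ℝ), 0 ≤ G → LipK ι g → (∀ x, InO 1 x → ‖g x‖ ≤ G) →
      ‖IntK φ g‖ ≤ B * G := by
    intro g G hG hg hgG
    refine le_of_tendsto (hlim g hg).norm (Eventually.of_forall fun N => ?_)
    refine IsUltrametricDist.norm_sum_le_of_forall_le_of_nonneg (by positivity) fun s _ => ?_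
    rw [norm_mul]
    exact mul_le_mul (hB _) (hgG _ (hdig s)) (norm_nonneg _) hB0
  refine ⟨hlim, hadd, hcmul, hbd, ?_, ?_, ?_⟩
  · intro g g' hgg
    have h1 : (fun N : ℕ => SInt φ N g) = fun N : ℕ => SInt φ N g' := by
      funext N
      unfold SInt
      exact Finset.sum_congr rfl fun s _ => by rw [hgg _ (hdig s)]
    unfold IntK
    rw [h1]
  · intro g N hg
    constructor
    · obtain ⟨G, hG⟩ : ∃ G : ℝ, ∀ s : Fin N → F, ‖g (dig 1 s)‖ ≤ G := by
        refine ⟨∑ s : Fin N → F, ‖g (dig 1 s)‖, fun s => ?_⟩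
        exact Finset.single_le_sum (f := fun s : Fin N → F => ‖g (dig 1 s)‖)
          (fun _ _ => norm_nonneg _) (Finset.mem_univ s)
      have hG' : ∀ x, InO 1 x → ‖g x‖ ≤ G := by
        intro x hx
        have h1 := H97.inO_sub_dg hLAU N 1 hx
        rw [hg x (dig 1 (H97.dig N 1 x)) hx (hdig _) (by rw [add_comm]; exact h1)]
        exact hG _
      have hG0 : 0 ≤ G := (norm_nonneg _).trans (hG' 0 (fun i _ => rfl))
      refine ⟨G * q ^ ((N : ℤ) + 1), fun x y hx hy => ?_⟩
      by_cases h : InO ((N : ℤ) + 1) (x - y)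
      · rw [hg x y hx hy h, sub_self, norm_zero]
        positivity
      · have h1 : q ^ (-((N : ℤ) + 1)) < ‖ι (x - y)‖ := by
          by_contra hc
          exact h (i4 _ _ (not_lt.1 hc))
        have h2 : ‖g x - g y‖ ≤ G := by
          rw [sub_eq_add_neg]
          refine (IsUltrametricDist.norm_add_le_max _ _).trans (max_le (hG' x hx) ?_)
          rw [norm_neg]
          exact hG' y hy
        have h3 : G * q ^ ((N : ℤ) + 1) * q ^ (-((N : ℤ) + 1)) = G := by
          rw [mul_assoc, ← zpow_add₀ hq0.ne', add_neg_cancel, zpow_zero, mul_one]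
        calc ‖g x - g y‖ ≤ G := h2
          _ = G * q ^ ((N : ℤ) + 1) * q ^ (-((N : ℤ) + 1)) := h3.symm
          _ ≤ _ := mul_le_mul_of_nonneg_left h1.le (by positivity)
    · have h1 : ∀ M : ℕ, N ≤ M → SInt φ M g = SInt φ N g := by
        intro M hM
        induction M, hM using Nat.le_induction with
        | base => rfl
        | succ M hM ih =>
          rw [← ih, ← sub_eq_zero, SInt_succ hVAL hφ]
          refine Finset.sum_eq_zero fun s _ => Finset.sum_eq_zero fun c _ => ?_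
          rw [hg _ _ (hdig _) (hdig _), sub_self, mul_zero]
          rw [dig_snoc, add_sub_cancel_left]
          exact H97.inO_mono (by omega) (H97.inO_cst_pow hLAU c _)
      refine Tendsto.limUnder_eq (tendsto_const_nhds.congr' ?_)
      filter_upwards [eventually_ge_atTop N] with M hM
      exact (h1 M hM).symm
  · intro g G gs hg hgs hunif hG
    rw [tendsto_iff_norm_sub_tendsto_zero]
    have hB1 : 0 < B + 1 := by linarith
    rw [Metric.tendsto_atTop]
    intro ε hε
    obtain ⟨i0, hi0⟩ := hunif (ε / (B + 1)) (by positivity)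
    refine ⟨i0, fun i hi => ?_⟩
    have h1 : G i - IntK φ g = - IntK φ (fun x => g x + (-1) * gs i x) := by
      rw [hadd g _ hg (LipK.cmul (-1) (hgs i)), hcmul _ _ (hgs i), hG i]
      ring
    have h2 : ‖IntK φ (fun x => g x + (-1) * gs i x)‖ ≤ B * (ε / (B + 1)) := by
      refine hbd _ _ (by positivity) (LipK.add hg (LipK.cmul (-1) (hgs i))) fun x hx => ?_
      have h3 := hi0 i hi x hx
      rwa [neg_one_mul, ← sub_eq_add_neg]
    rw [Real.dist_eq, sub_zero, abs_of_nonneg (norm_nonneg _), h1, norm_neg]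
    refine lt_of_le_of_lt h2 ?_
    rw [← mul_div_assoc, div_lt_iff₀ hB1]
    nlinarith

end Pool.Agent.HK.H63
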