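import Pool.Agent.Helper8_HK.Stmt3
import Pool.Agent.Helper8_HK.Stmt0

/-!
# Squad HK, module KSM: the sum relation for residues
-/

set_option autoImplicit false
set_option linter.unusedSectionVars false

namespace Pool.Agent.HK.H63

open Polynomial Filter

theorem ksm (hRES : RESStmt) (hNIC : NICStmt) (hHOL : HOLStmt) (hELM : ELMStmt)
    (hIMA : IMAStmt) (hMTX : MTXStmt) : KSMStmt := by
  intro F _ _ C _ _ _ _ ι ρ hctx f hf
  classical
  obtain ⟨r1, r2, r3, r4, r5, r6, r7, r8, r9, r10, r11, r12⟩ := hRES F C ι ρ hctx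
  obtain ⟨n1, n2, n3, n4, n5, n6⟩ := hNIC F C ι ρ hctx
  obtain ⟨i1, i2, i3, i4, i5, i6, i7, i8, i9, i10, i11⟩ := hIMA F C ι hctx.ok
  obtain ⟨m1, _⟩ := hMTX F
  set q : ℝ := ((Fintype.card F : ℕ) : ℝ) with hq
  have hq1 : 1 < q := by
    rw [hq]
    exact_mod_cast Fintype.one_lt_card
  have hq0 : 0 < q := by linarith
  have hρ0 : 0 < ‖ρ‖ := by linarith
  have hne : ∀ z : C, ‖z‖ = ‖ρ‖ → z ≠ 0 := by
    intro z hz h0
    rw [h0, norm_zero] at hz
    linarith
  let U : F → C := fun u => ι (cst F u)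
  -- the slash operator
  have hsl : ∀ (u : F) (h : C → C) (z : C), z ≠ 0 →
      slash ι (mat (cst F u) 1 1 0) h z = -(z ^ 2)⁻¹ * h (U u + z⁻¹) := by
    intro u h z hz
    obtain ⟨a1, a2, a3, a4⟩ := m1 (cst F u) 1 1 0 (by simp)
    unfold slash
    rw [a1, a2, a3, a4]
    simp only [mul_zero, one_mul, zero_sub, map_neg, map_one, map_zero, add_zero, mul_one]
    have e : (ι (cst F u) * z + 1) / z = U u + z⁻¹ := by
      change _ = ι (cst F u) + z⁻¹
      field_simp
    rw [e]
    ring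
  -- the point `u + 1/z`
  have hpt : ∀ (u : F) (z : C), ‖z‖ = ‖ρ‖ → U u + z⁻¹ ∈ OmN ι 1 := by
    intro u z hz
    have h1 : ‖z⁻¹‖ = ‖ρ‖⁻¹ := by rw [norm_inv, hz]
    have h2 : q ^ (-1 : ℤ) < ‖z⁻¹‖ := by
      rw [h1, zpow_neg_one]
      exact (inv_lt_inv₀ hq0 hρ0).2 n2
    have h3 : ‖z⁻¹‖ < q ^ ((-1 : ℤ) + 1) := by
      rw [h1, neg_add_cancel, zpow_zero]
      exact inv_lt_one_of_one_lt₀ n1
    obtain ⟨h4, h5⟩ := i11 z⁻¹ (-1) h2 h3
    have h6 := i7 z⁻¹ (cst F u)
    rw [i8 1, add_comm]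
    refine ⟨h6.2.1 h4, ?_, ?_⟩
    · refine (IsUltrametricDist.norm_add_le_max _ _).trans (max_le ?_ ?_)
      · rw [pow_one]
        rw [neg_add_cancel, zpow_zero] at h3
        linarith
      · have h7 : InO 0 (cst F u) := by
          intro i hi
          unfold cst
          rw [HahnSeries.C_apply, HahnSeries.coeff_single_of_ne (by omega)]
        have h8 := i2 _ 0 h7
        rw [neg_zero, zpow_zero] at h8
        rw [pow_one]
        exact h8.trans hq1.le
    · rw [h6.1, h5, pow_one]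
      rw [zpow_neg_one] at h2
      exact h2.le
  -- nullity
  let Z : (C → C) → Prop := fun h => Nice ρ h ∧ res F ρ h = 0
  have hZmul : ∀ (c : C) (h : C → C), Z h → Z (fun z => c * h z) := by
    intro c h ⟨h1, h2⟩
    obtain ⟨h3, h4⟩ := r3 c h h1
    exact ⟨h3, by rw [h4, h2, mul_zero]⟩
  have hZadd : ∀ h h' : C → C, Z h → Z h' → Z (fun z => h z + h' z) := by
    intro h h' ⟨h1, h2⟩ ⟨h3, h4⟩
    obtain ⟨h5, h6⟩ := r2 h h' h1 h3
    exact ⟨h5, by rw [h6, h2, h4, add_zero]⟩
  have hZcongr : ∀ h h' : C → C, Z h → (∀ z, ‖z‖ = ‖ρ‖ → h z = h' z) → Z h' := by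
    intro h h' ⟨h1, h2⟩ h3
    obtain ⟨h4, h5⟩ := r4 h h' h3
    exact ⟨h4 h1, by rw [← h5, h2]⟩
  have hnice0 : ∀ (a : C) (j : ℕ), ‖a‖ ≠ ‖ρ‖ → Nice ρ (fun z => ((z - a) ^ (j + 1))⁻¹) := by
    intro a j ha
    exact r7 _ (Submodule.subset_span (Or.inr ⟨a, ha, j, rfl⟩))
  have hnice1 : ∀ a : C, ‖a‖ ≠ ‖ρ‖ → Nice ρ (fun z => (z - a)⁻¹) := by
    intro a ha
    have := hnice0 a 0 ha
    simpa using this
  have hnicep : ∀ j : ℕ, Nice ρ (fun z => z ^ j) := fun j =>
    r7 _ (Submodule.subset_span (Or.inl ⟨j, rfl⟩))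
  have hZpow : ∀ j : ℕ, Z (fun z => z ^ j) := fun j => ⟨hnicep j, r9 j⟩
  have hZinv : ∀ (a : C) (j : ℕ), ‖a‖ ≠ ‖ρ‖ → Z (fun z => ((z - a) ^ (j + 2))⁻¹) :=
    fun a j ha => ⟨hnice0 a (j + 1) ha, r12 a j ha⟩
  have hZzero : Z (fun _ => 0) := by
    have := hZmul 0 _ (hZpow 0)
    simpa using this
  have hZsum : ∀ (s : Finset ℕ) (h : ℕ → C → C), (∀ i ∈ s, Z (h i)) →
      Z (fun z => ∑ i ∈ s, h i z) := by
    intro s h
    induction s using Finset.induction_on with
    | empty =>
      intro _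
      simpa using hZzero
    | insert a s ha ih =>
      intro hs
      have h1 := hZadd _ _ (hs a (Finset.mem_insert_self a s))
        (ih fun i hi => hs i (Finset.mem_insert_of_mem hi))
      refine hZcongr _ _ h1 fun z _ => ?_
      rw [Finset.sum_insert ha]
  have h0ρ : ‖(0 : C)‖ ≠ ‖ρ‖ := by
    rw [norm_zero]
    exact hρ0.ne
  -- basis functions: powers
  have hbpow : ∀ (u : F) (i : ℕ), Z (slash ι (mat (cst F u) 1 1 0) (fun w => w ^ i)) := by
    intro u i
    have h1 : Z (fun z => ∑ m ∈ Finset.range (i + 1),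
        (-((U u) ^ m * (i.choose m : C))) * ((z - 0) ^ ((i - m) + 2))⁻¹) :=
      hZsum _ _ fun m _ => hZmul _ _ (hZinv 0 _ h0ρ)
    refine hZcongr _ _ h1 fun z hz => ?_
    have hz0 := hne z hz
    rw [hsl u _ z hz0]
    have e1 : U u + z⁻¹ = (U u * z + 1) * z⁻¹ := by
      field_simp
    rw [e1, mul_pow, add_pow, Finset.sum_mul, Finset.mul_sum]
    refine Finset.sum_congr rfl fun m hm => ?_
    have hmi : m ≤ i := Nat.lt_succ_iff.1 (Finset.mem_range.1 hm)
    obtain ⟨d, rfl⟩ := Nat.exists_eq_add_of_le hmi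
    rw [Nat.add_sub_cancel_left, sub_zero, one_pow, mul_pow, inv_pow]
    field_simp
    ring
  have hbU : ∀ (u : F) (z : C), ‖z‖ = ‖ρ‖ → ∀ a : C, a ∉ OmN ι 1 → a - U u ≠ z⁻¹ := by
    intro u z hz a ha h
    apply ha
    have : a = U u + z⁻¹ := by rw [← h]; ring
    rw [this]
    exact hpt u z hz
  have hbb : ∀ (u : F) (a : C), a ∉ OmN ι 1 → ‖(a - U u)⁻¹‖ ≠ ‖ρ‖ := by
    intro u a ha h
    exact hbU u _ h a ha (inv_inv _).symm
  -- basis functions: higher poles
  have hbinv : ∀ (u : F) (a : C) (j : ℕ), a ∉ OmN ι 1 →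
      Z (slash ι (mat (cst F u) 1 1 0) (fun w => ((w - a) ^ (j + 2))⁻¹)) := by
    intro u a j ha
    by_cases hau : a = U u
    · have h1 : Z (fun z => (-1) * z ^ j) := hZmul _ _ (hZpow j)
      refine hZcongr _ _ h1 fun z hz => ?_
      have hz0 := hne z hz
      rw [hsl u _ z hz0, hau]
      have e1 : U u + z⁻¹ - U u = z⁻¹ := by ring
      rw [e1, inv_pow]
      field_simp
      ring
    · have hau' : a - U u ≠ 0 := sub_ne_zero.2 hau
      set b := (a - U u)⁻¹ with hb
      have hb0 : b ≠ 0 := inv_ne_zero hau'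
      have hbρ : ‖b‖ ≠ ‖ρ‖ := hbb u a ha
      have h1 : Z (fun z => ∑ m ∈ Finset.range (j + 1),
          (-(-b) ^ (j + 2) * (b ^ (j - m) * (j.choose m : C))) *
            ((z - b) ^ ((j - m) + 2))⁻¹) :=
        hZsum _ _ fun m _ => hZmul _ _ (hZinv b _ hbρ)
      refine hZcongr _ _ h1 fun z hz => ?_
      have hz0 := hne z hz
      have hzb : z - b ≠ 0 := by
        intro h
        rw [sub_eq_zero] at h
        rw [h] at hz
        exact hbρ hz
      rw [hsl u _ z hz0]
      have e1 : U u + z⁻¹ - a = -(b⁻¹) * (z - b) * z⁻¹ := by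
        have : a = U u + b⁻¹ := by rw [hb, inv_inv]; ring
        rw [this]
        field_simp
        ring
      have e2 : -(z ^ 2)⁻¹ * ((U u + z⁻¹ - a) ^ (j + 2))⁻¹ =
          -(-b) ^ (j + 2) * (z ^ j * ((z - b) ^ (j + 2))⁻¹) := by
        rw [e1, mul_pow, mul_pow, inv_pow z]
        have e3 : (-(b⁻¹)) ^ (j + 2) = ((-b) ^ (j + 2))⁻¹ := by
          rw [← inv_pow, neg_inv]
        rw [e3]
        have hnb : (-b) ^ (j + 2) ≠ 0 := pow_ne_zero _ (neg_ne_zero.2 hb0)
        field_simp
        ring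
      change _ = -(z ^ 2)⁻¹ * ((U u + z⁻¹ - a) ^ (j + 2))⁻¹
      rw [e2]
      have e4 : z ^ j = ∑ m ∈ Finset.range (j + 1), (z - b) ^ m * b ^ (j - m) *
          (j.choose m : C) := by
        rw [← add_pow, sub_add_cancel]
      rw [e4, Finset.sum_mul, Finset.mul_sum]
      refine Finset.sum_congr rfl fun m hm => ?_
      have hmi : m ≤ j := Nat.lt_succ_iff.1 (Finset.mem_range.1 hm)
      obtain ⟨d, rfl⟩ := Nat.exists_eq_add_of_le hmi
      rw [Nat.add_sub_cancel_left]
      field_simp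
      ring
  -- basis functions: simple poles
  have hbsim : ∀ (u : F) (a : C), a ∉ OmN ι 1 →
      Nice ρ (slash ι (mat (cst F u) 1 1 0) (fun w => (w - a)⁻¹)) ∧
      res F ρ (slash ι (mat (cst F u) 1 1 0) (fun w => (w - a)⁻¹)) =
        if ‖a - U u‖ < ‖ρ‖⁻¹ then -1 else 0 := by
    intro u a ha
    by_cases hau : a = U u
    · have h1 := r3 (-1) _ (hnice1 0 h0ρ)
      rw [r10 0 (by rw [norm_zero]; exact hρ0), mul_one] at h1
      have h2 := r4 (fun z => (-1) * (z - 0)⁻¹)
        (slash ι (mat (cst F u) 1 1 0) (fun w => (w - a)⁻¹)) (fun z hz => by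
          have hz0 := hne z hz
          rw [hsl u _ z hz0, hau]
          have e1 : U u + z⁻¹ - U u = z⁻¹ := by ring
          rw [e1]
          field_simp
          simp)
      refine ⟨h2.1 h1.1, ?_⟩
      rw [← h2.2, h1.2, hau, sub_self, norm_zero, if_pos (inv_pos.2 hρ0)]
    · have hau' : a - U u ≠ 0 := sub_ne_zero.2 hau
      set b := (a - U u)⁻¹ with hb
      have hb0 : b ≠ 0 := inv_ne_zero hau'
      have hbρ : ‖b‖ ≠ ‖ρ‖ := hbb u a ha
      have hbn : ‖b‖ = ‖a - U u‖⁻¹ := by rw [hb, norm_inv]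
      have h1 := r3 (-1) _ (hnice1 0 h0ρ)
      rw [r10 0 (by rw [norm_zero]; exact hρ0), mul_one] at h1
      have h3 := r2 _ _ (hnice1 b hbρ) h1.1
      have h2 := r4 (fun z => (z - b)⁻¹ + (-1) * (z - 0)⁻¹)
        (slash ι (mat (cst F u) 1 1 0) (fun w => (w - a)⁻¹)) (fun z hz => by
          have hz0 := hne z hz
          have hzb : z - b ≠ 0 := by
            intro h
            rw [sub_eq_zero] at h
            rw [h] at hz
            exact hbρ hz
          rw [hsl u _ z hz0]
          have e1 : U u + z⁻¹ - a = -(b⁻¹) * (z - b) * z⁻¹ := by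
            have : a = U u + b⁻¹ := by rw [hb, inv_inv]; ring
            rw [this]
            field_simp
            ring
          rw [e1, sub_zero]
          field_simp
          ring)
      refine ⟨h2.1 h3.1, ?_⟩
      rw [← h2.2, h3.2, h1.2]
      have hpos : 0 < ‖a - U u‖ := norm_pos_iff.2 hau'
      by_cases hlt : ‖a - U u‖ < ‖ρ‖⁻¹
      · rw [if_pos hlt, r11 b, zero_add]
        rw [hbn]
        exact (lt_inv_comm₀ hpos hρ0).1 hlt
      · rw [if_neg hlt, r10 b, add_neg_cancel]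
        rw [hbn]
        rw [hbn] at hbρ
        refine lt_of_le_of_ne ?_ hbρ
        exact inv_le_of_inv_le₀ hρ0 (not_lt.1 hlt)
  -- the counting
  have hcount : ∀ a : C, a ∉ OmN ι 1 →
      (if ‖a‖ < ‖ρ‖ then (1 : C) else 0) +
        ∑ u : F, (if ‖a - U u‖ < ‖ρ‖⁻¹ then (-1 : C) else 0) = 0 := by
    intro a ha
    have haρ := n5 a ha
    have hρ1 : ‖ρ‖⁻¹ < 1 := inv_lt_one_of_one_lt₀ n1
    have hUle : ∀ u : F, ‖U u‖ ≤ 1 := by
      intro u
      have h7 : InO 0 (cst F u) := by
        intro i hi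
        unfold cst
        rw [HahnSeries.C_apply, HahnSeries.coeff_single_of_ne (by omega)]
      have h8 := i2 _ 0 h7
      rwa [neg_zero, zpow_zero] at h8
    by_cases hlt : ‖a‖ < ‖ρ‖
    · rw [if_pos hlt]
      have hex : ∃ x : Kinf F, ‖a - ι x‖ < q⁻¹ := by
        by_contra hcon
        push Not at hcon
        apply ha
        refine ⟨?_, ?_⟩
        · rw [pow_one]
          linarith
        · intro x
          rw [pow_one]
          exact hcon x
      obtain ⟨x, hx⟩ := hex
      have hqi : q⁻¹ < ‖ρ‖⁻¹ := (inv_lt_inv₀ hq0 hρ0).2 n2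
      have hxn : ‖ι x‖ < q := by
        have e : ι x = a - (a - ι x) := by ring
        rw [e, sub_eq_add_neg]
        refine lt_of_le_of_lt (IsUltrametricDist.norm_add_le_max _ _) (max_lt ?_ ?_)
        · linarith
        · rw [norm_neg]
          linarith
      have hx0 : InO 0 x := by
        by_cases hxz : x = 0
        · rw [hxz]
          intro i _
          rfl
        · have h1 := hctx.ok x hxz
          intro i hi
          refine HahnSeries.coeff_eq_zero_of_lt_order (lt_of_lt_of_le hi ?_)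
          by_contra hc
          push Not at hc
          have h2 : q ^ (1 : ℤ) ≤ q ^ (-(HahnSeries.order x)) :=
            zpow_le_zpow_right₀ hq1.le (by omega)
          rw [zpow_one] at h2
          rw [h1] at hxn
          exact absurd hxn (not_lt.2 h2)
      set u₀ : F := HahnSeries.coeff x 0 with hu₀
      have hxu : InO 1 (x - cst F u₀) := by
        intro i hi
        rw [HahnSeries.coeff_sub]
        unfold cst
        rw [HahnSeries.C_apply]
        by_cases h0 : i = 0
        · subst h0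
          rw [HahnSeries.coeff_single_same, hu₀, sub_self]
        · rw [HahnSeries.coeff_single_of_ne h0, hx0 i (by omega), sub_zero]
      have hau : ‖a - U u₀‖ < ‖ρ‖⁻¹ := by
        have e : a - U u₀ = (a - ι x) + ι (x - cst F u₀) := by
          rw [map_sub]
          change a - ι (cst F u₀) = _
          ring
        rw [e]
        refine lt_of_le_of_lt (IsUltrametricDist.norm_add_le_max _ _) (max_lt ?_ ?_)
        · linarith
        · have h1 := i2 _ 1 hxu
          rw [zpow_neg_one] at h1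
          exact lt_of_le_of_lt h1 hqi
      have huniq : ∀ u : F, u ≠ u₀ → ¬ ‖a - U u‖ < ‖ρ‖⁻¹ := by
        intro u hu hlt'
        have h1 : ‖ι (cst F u - cst F u₀)‖ = 1 := by
          have h2 := i3 (cst F u - cst F u₀) 0 (by
            intro i hi
            rw [HahnSeries.coeff_sub]
            unfold cst
            rw [HahnSeries.C_apply, HahnSeries.C_apply, HahnSeries.coeff_single_of_ne (by omega),
              HahnSeries.coeff_single_of_ne (by omega), sub_zero]) (by
            rw [HahnSeries.coeff_sub]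
            unfold cst
            rw [HahnSeries.C_apply, HahnSeries.C_apply, HahnSeries.coeff_single_same,
              HahnSeries.coeff_single_same]
            exact sub_ne_zero.2 hu)
          rwa [neg_zero, zpow_zero] at h2
        have e : ι (cst F u - cst F u₀) = (a - U u₀) + -(a - U u) := by
          rw [map_sub]
          change ι (cst F u) - ι (cst F u₀) = (a - ι (cst F u₀)) + -(a - ι (cst F u))
          ring
        have h3 : ‖ι (cst F u - cst F u₀)‖ < 1 := by
          rw [e]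
          refine lt_of_le_of_lt (IsUltrametricDist.norm_add_le_max _ _) (max_lt ?_ ?_)
          · linarith
          · rw [norm_neg]
            linarith
        linarith
      rw [Finset.sum_eq_single u₀]
      · rw [if_pos hau]
        ring
      · intro u _ hu
        rw [if_neg (huniq u hu)]
      · intro h
        exact absurd (Finset.mem_univ _) h
    · rw [if_neg hlt, zero_add]
      refine Finset.sum_eq_zero fun u _ => ?_
      rw [if_neg]
      intro h
      have e : a = (a - U u) + U u := by ring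
      have h2 : ‖a‖ ≤ 1 := by
        rw [e]
        refine (IsUltrametricDist.norm_add_le_max _ _).trans (max_le ?_ (hUle u))
        linarith
      apply hlt
      linarith
  -- all elementary functions
  let P : (C → C) → Prop := fun e => Nice ρ e ∧
    (∀ u : F, Nice ρ (slash ι (mat (cst F u) 1 1 0) e)) ∧
    res F ρ e + ∑ u : F, res F ρ (slash ι (mat (cst F u) 1 1 0) e) = 0
  have hPZ : ∀ e : C → C, Z e → (∀ u : F, Z (slash ι (mat (cst F u) 1 1 0) e)) → P e := by
    intro e h1 h2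
    refine ⟨h1.1, fun u => (h2 u).1, ?_⟩
    rw [h1.2, zero_add]
    exact Finset.sum_eq_zero fun u _ => (h2 u).2
  have hPall : ∀ e ∈ Elm (OmN ι 1)ᶜ, P e := by
    intro e he
    refine Submodule.span_induction (p := fun e _ => P e) ?_ ?_ ?_ ?_ he
    · rintro e (⟨j, rfl⟩ | ⟨a, ha, j, rfl⟩)
      · exact hPZ _ (hZpow j) fun u => hbpow u j
      · rcases j with _ | j
        · have e1 : (fun z : C => ((z - a) ^ (0 + 1))⁻¹) = fun z => (z - a)⁻¹ := by
            funext z
            rw [zero_add, pow_one]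
          rw [e1]
          have haρ := n5 a ha
          refine ⟨hnice1 a haρ, fun u => (hbsim u a ha).1, ?_⟩
          have h1 := hcount a ha
          have h2 : res F ρ (fun z => (z - a)⁻¹) = if ‖a‖ < ‖ρ‖ then (1 : C) else 0 := by
            by_cases hlt : ‖a‖ < ‖ρ‖
            · rw [if_pos hlt, r10 a hlt]
            · rw [if_neg hlt, r11 a (lt_of_le_of_ne (not_lt.1 hlt) haρ.symm)]
          have h3 : ∑ u : F, res F ρ (slash ι (mat (cst F u) 1 1 0) (fun w => (w - a)⁻¹)) =
              ∑ u : F, (if ‖a - U u‖ < ‖ρ‖⁻¹ then (-1 : C) else 0) :=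
            Finset.sum_congr rfl fun u _ => (hbsim u a ha).2
          rw [h2, h3]
          exact h1
        · exact hPZ _ (hZinv a j (n5 a ha)) fun u => hbinv u a j ha
    · refine hPZ _ hZzero fun u => ?_
      refine hZcongr _ _ hZzero fun z hz => ?_
      rw [hsl u _ z (hne z hz)]
      simp
    · rintro e e' _ _ ⟨h1, h2, h3⟩ ⟨h4, h5, h6⟩
      have h7 := r2 e e' h1 h4
      refine ⟨h7.1, fun u => ?_, ?_⟩
      · rw [slash_add]
        exact (r2 _ _ (h2 u) (h5 u)).1
      · have h8 : ∀ u : F, res F ρ (slash ι (mat (cst F u) 1 1 0) (e + e')) =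
            res F ρ (slash ι (mat (cst F u) 1 1 0) e) +
              res F ρ (slash ι (mat (cst F u) 1 1 0) e') := by
          intro u
          rw [slash_add]
          exact (r2 _ _ (h2 u) (h5 u)).2
        have h9 : res F ρ (e + e') = res F ρ e + res F ρ e' := h7.2
        rw [h9]
        simp only [h8, Finset.sum_add_distrib]
        linear_combination h3 + h6
    · rintro c e _ ⟨h1, h2, h3⟩
      have h7 := r3 c e h1
      refine ⟨h7.1, fun u => ?_, ?_⟩
      · rw [slash_smul]
        exact (r3 c _ (h2 u)).1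
      · have h8 : ∀ u : F, res F ρ (slash ι (mat (cst F u) 1 1 0) (c • e)) =
            c * res F ρ (slash ι (mat (cst F u) 1 1 0) e) := by
          intro u
          rw [slash_smul]
          exact (r3 c _ (h2 u)).2
        have h9 : res F ρ (c • e) = c * res F ρ e := h7.2
        rw [h9]
        simp only [h8, ← Finset.mul_sum]
        linear_combination c * h3
  -- approximation
  have hfn : Nice ρ f := n6 f hf
  have hfu : ∀ u : F, Nice ρ (slash ι (mat (cst F u) 1 1 0) f) := fun u =>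
    n6 _ ((hHOL F C ι hctx.ok f hf).1 _)
  have hmain : ∀ ε : ℝ, 0 < ε →
      ‖res F ρ f + ∑ u : F, res F ρ (slash ι (mat (cst F u) 1 1 0) f)‖ ≤ ‖ρ‖ * ε := by
    intro ε hε
    obtain ⟨Pf, Qf, hQ, hPQ⟩ := hf 1 ε hε
    obtain ⟨e, he, hee⟩ := (hELM C (OmN ι 1)).1 Pf Qf hQ
    obtain ⟨p1, p2, p3⟩ := hPall e he
    have hfe : ∀ z ∈ OmN ι 1, ‖f z - e z‖ ≤ ε := by
      intro z hz
      rw [← hee z hz]
      exact (hPQ z hz).le
    have hd0 : Nice ρ (fun z => f z + (-1) * e z) := (r2 _ _ hfn (r3 (-1) e p1).1).1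
    have hd1 : res F ρ (fun z => f z + (-1) * e z) = res F ρ f - res F ρ e := by
      rw [(r2 _ _ hfn (r3 (-1) e p1).1).2, (r3 (-1) e p1).2]
      ring
    have hb0 : ‖res F ρ f - res F ρ e‖ ≤ ‖ρ‖ * ε := by
      rw [← hd1]
      refine r5 _ ε hd0 hε.le fun z hz => ?_
      have := hfe z (n4 z hz).1
      rwa [neg_one_mul, ← sub_eq_add_neg]
    have hbu : ∀ u : F, ‖res F ρ (slash ι (mat (cst F u) 1 1 0) f) -
        res F ρ (slash ι (mat (cst F u) 1 1 0) e)‖ ≤ ‖ρ‖ * ε := by
      intro u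
      have h1 := r3 (-1) _ (p2 u)
      have h2 := r2 _ _ (hfu u) h1.1
      have h3 : res F ρ (slash ι (mat (cst F u) 1 1 0) f) -
          res F ρ (slash ι (mat (cst F u) 1 1 0) e) =
          res F ρ (fun z => slash ι (mat (cst F u) 1 1 0) f z +
            (-1) * slash ι (mat (cst F u) 1 1 0) e z) := by
        rw [h2.2, h1.2]
        ring
      rw [h3]
      refine r5 _ ε h2.1 hε.le fun z hz => ?_
      have hz0 := hne z hz
      rw [hsl u f z hz0, hsl u e z hz0]
      have e1 : -(z ^ 2)⁻¹ * f (U u + z⁻¹) + (-1) * (-(z ^ 2)⁻¹ * e (U u + z⁻¹)) =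
          -(z ^ 2)⁻¹ * (f (U u + z⁻¹) - e (U u + z⁻¹)) := by ring
      rw [e1, norm_mul, norm_neg, norm_inv, norm_pow, hz, n3]
      have h4 := hfe _ (hpt u z hz)
      calc q⁻¹ * ‖f (U u + z⁻¹) - e (U u + z⁻¹)‖ ≤ 1 * ε :=
            mul_le_mul (inv_le_one_of_one_le₀ hq1.le) h4 (norm_nonneg _) zero_le_one
        _ = ε := one_mul ε
    have e2 : res F ρ f + ∑ u : F, res F ρ (slash ι (mat (cst F u) 1 1 0) f) =
        (res F ρ f - res F ρ e) + ∑ u : F, (res F ρ (slash ι (mat (cst F u) 1 1 0) f) -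
          res F ρ (slash ι (mat (cst F u) 1 1 0) e)) := by
      rw [Finset.sum_sub_distrib]
      linear_combination p3
    rw [e2]
    refine (IsUltrametricDist.norm_add_le_max _ _).trans (max_le hb0 ?_)
    exact IsUltrametricDist.norm_sum_le_of_forall_le_of_nonneg (by positivity) fun u _ => hbu u
  have hzero : ‖res F ρ f + ∑ u : F, res F ρ (slash ι (mat (cst F u) 1 1 0) f)‖ ≤ 0 := by
    refine le_of_forall_pos_le_add fun δ hδ => ?_
    have := hmain (δ / ‖ρ‖) (by positivity)
    rwa [mul_div_cancel₀ _ hρ0.ne', ← zero_add δ] at this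
  exact norm_le_zero_iff.1 hzero

end Pool.Agent.HK.H63
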